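import Mathlib
import Pool.Agent.Y727.FG.Stm

set_option autoImplicit false

/-!
# Uniqueness in the van der Waerden permanent inequality
-/

namespace Pool.Agent.Y338.FG

open Finset Pool.Agent.Y727.FG

/-- the weighted inequality of the means for a doubly stochastic matrix: rows -/
lemma gm_prod {n : ℕ} {A : Matrix (Fin n) (Fin n) ℝ} (hA : DS A) (y : Fin n → ℝ)
    (hy : ∀ j, 0 < y j) : ∏ i, ∏ j, y j ^ A i j = ∏ j, y j := by
  rw [prod_comm]
  refine prod_congr rfl fun j _ => ?_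
  rw [← Real.rpow_sum_of_pos (hy j), hA.2.2 j, Real.rpow_one]

lemma row_le {n : ℕ} {A : Matrix (Fin n) (Fin n) ℝ} (hA : DS A) (y : Fin n → ℝ)
    (hy : ∀ j, 0 < y j) (i : Fin n) : ∏ j, y j ^ A i j ≤ ∑ j, A i j * y j :=
  Real.geom_mean_le_arith_mean_weighted univ (A i) y (fun j _ => hA.1 i j) (hA.2.1 i)
    (fun j _ => (hy j).le)

lemma prod_le {n : ℕ} {A : Matrix (Fin n) (Fin n) ℝ} (hA : DS A) (y : Fin n → ℝ)
    (hy : ∀ j, 0 < y j) : ∏ j, y j ≤ ∏ i, ∑ j, A i j * y j := by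
  rw [← gm_prod hA y hy]
  exact prod_le_prod (fun i _ => prod_nonneg fun j _ => Real.rpow_nonneg (hy j).le _)
    fun i _ => row_le hA y hy i

lemma const_of_eq {n : ℕ} {A : Matrix (Fin n) (Fin n) ℝ} (hA : DS A) (hpos : ∀ i j, 0 < A i j)
    (y : Fin n → ℝ) (hy : ∀ j, 0 < y j) (h : ∏ i, ∑ j, A i j * y j ≤ ∏ j, y j) :
    ∀ i j, y j = ∑ j', A i j' * y j' := by
  intro i j
  have h1 : ∏ j, y j ^ A i j = ∑ j, A i j * y j := by
    by_contra hne
    have h2 : ∏ i, ∏ j, y j ^ A i j < ∏ i, ∑ j, A i j * y j :=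
      prod_lt_prod (fun i _ => prod_pos fun j _ => Real.rpow_pos_of_pos (hy j) _)
        (fun i _ => row_le hA y hy i) ⟨i, mem_univ _, lt_of_le_of_ne (row_le hA y hy i) hne⟩
    rw [gm_prod hA y hy] at h2
    exact absurd h (not_le.2 h2)
  have h2 := (Real.geom_mean_eq_arith_mean_weighted_iff_of_pos univ (A i) y
    (fun j _ => hpos i j) (hA.2.1 i) (fun j _ => (hy j).le)).1 h1 j (mem_univ _)
  have h3 : ∑ j', A i j' * y j' = ∑ j', A i j' * y j :=
    sum_congr rfl fun k hk => by rw [h2 k hk]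
  rw [h3, ← sum_mul, hA.2.1 i, one_mul]

/-- the inequality of the means -/
lemma amgm {ι : Type} [DecidableEq ι] (s : Finset ι) (m : ℕ) (hs : s.card = m) (hm : 0 < m)
    (z : ι → ℝ) (hz : ∀ i ∈ s, 0 ≤ z i) : ∏ i ∈ s, z i ≤ ((∑ i ∈ s, z i) / m) ^ m := by
  have hm' : (0 : ℝ) < m := by exact_mod_cast hm
  have h := Real.geom_mean_le_arith_mean_weighted s (fun _ => 1 / (m : ℝ)) z
    (fun _ _ => by positivity) (by rw [sum_const, hs, nsmul_eq_mul]; field_simp) hz
  have h1 : (∏ i ∈ s, z i ^ (1 / (m : ℝ))) ^ m = ∏ i ∈ s, z i := by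
    rw [← prod_pow]
    refine prod_congr rfl fun i hi => ?_
    rw [← Real.rpow_natCast, ← Real.rpow_mul (hz i hi), one_div_mul_cancel hm'.ne', Real.rpow_one]
  have h2 : ∑ i ∈ s, 1 / (m : ℝ) * z i = (∑ i ∈ s, z i) / m := by
    rw [← mul_sum]
    ring
  rw [← h1, ← h2]
  exact pow_le_pow_left₀ (prod_nonneg fun i hi => Real.rpow_nonneg (hz i hi) _) h m

lemma amgm_eq {ι : Type} [DecidableEq ι] (s : Finset ι) (m : ℕ) (hs : s.card = m) (hm : 0 < m)
    (z : ι → ℝ) (hz : ∀ i ∈ s, 0 ≤ z i) (h : ((∑ i ∈ s, z i) / m) ^ m ≤ ∏ i ∈ s, z i) :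
    ∀ i ∈ s, z i = (∑ i ∈ s, z i) / m := by
  have hm' : (0 : ℝ) < m := by exact_mod_cast hm
  have h0 := Real.geom_mean_le_arith_mean_weighted s (fun _ => 1 / (m : ℝ)) z
    (fun _ _ => by positivity) (by rw [sum_const, hs, nsmul_eq_mul]; field_simp) hz
  have h1 : (∏ i ∈ s, z i ^ (1 / (m : ℝ))) ^ m = ∏ i ∈ s, z i := by
    rw [← prod_pow]
    refine prod_congr rfl fun i hi => ?_
    rw [← Real.rpow_natCast, ← Real.rpow_mul (hz i hi), one_div_mul_cancel hm'.ne', Real.rpow_one]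
  have h2 : ∑ i ∈ s, 1 / (m : ℝ) * z i = (∑ i ∈ s, z i) / m := by
    rw [← mul_sum]
    ring
  have h3 : ∏ i ∈ s, z i ^ (1 / (m : ℝ)) = ∑ i ∈ s, 1 / (m : ℝ) * z i := by
    refine le_antisymm h0 ?_
    rw [← h1, ← h2] at h
    exact le_of_pow_le_pow_left₀ hm.ne' (prod_nonneg fun i hi => Real.rpow_nonneg (hz i hi) _) h
  intro i hi
  have h4 := (Real.geom_mean_eq_arith_mean_weighted_iff_of_pos s (fun _ => 1 / (m : ℝ)) z
    (fun _ _ => by positivity) (by rw [sum_const, hs, nsmul_eq_mul]; field_simp) hz).1 h3 i hi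
  have h5 : ∑ k ∈ s, z k = ∑ k ∈ s, z i := sum_congr rfl fun k hk => (h4 k hk).symm
  rw [h5, sum_const, hs, nsmul_eq_mul]
  field_simp

/-- `b i` -/
def bb {k : ℕ} (A : Matrix (Fin (k + 1)) (Fin (k + 1)) ℝ) (x : Fin k → ℝ) (i : Fin (k + 1)) : ℝ :=
  ∑ j : Fin k, A i j.succ * x j

/-- `Q x` -/
def QQ {k : ℕ} (A : Matrix (Fin (k + 1)) (Fin (k + 1)) ℝ) (x : Fin k → ℝ) : ℝ :=
  ∑ i, A i 0 * ∏ i' ∈ univ.erase i, bb A x i'

lemma tX {k : ℕ} {A : Matrix (Fin (k + 1)) (Fin (k + 1)) ℝ} (hA : DS A) (x : Fin k → ℝ)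
    (hx : ∀ j, 0 < x j) (t : ℝ) (ht : 0 < t) : t * ∏ j, x j ≤ ∏ i, (A i 0 * t + bb A x i) := by
  have h := prod_le hA (Fin.cons t x) (fun j => by
    refine Fin.cases ?_ (fun j => ?_) j
    · exact ht
    · exact hx j)
  rw [Fin.prod_univ_succ] at h
  simp only [Fin.cons_zero, Fin.cons_succ] at h
  refine h.trans (le_of_eq (prod_congr rfl fun i _ => ?_))
  rw [Fin.sum_univ_succ]
  simp [bb]

lemma bb_nonneg {k : ℕ} {A : Matrix (Fin (k + 1)) (Fin (k + 1)) ℝ} (hA : DS A) {x : Fin k → ℝ}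
    (hx : ∀ j, 0 < x j) (i : Fin (k + 1)) : 0 ≤ bb A x i :=
  sum_nonneg fun j _ => mul_nonneg (hA.1 _ _) (hx j).le

lemma QQ_eq {k : ℕ} {A : Matrix (Fin (k + 1)) (Fin (k + 1)) ℝ} {x : Fin k → ℝ}
    (hb : ∀ i, 0 < bb A x i) : QQ A x = (∏ i, bb A x i) * ∑ i, A i 0 / bb A x i := by
  unfold QQ
  rw [mul_sum]
  refine sum_congr rfl fun i _ => ?_
  rw [← mul_prod_erase univ (bb A x) (mem_univ i)]
  have := (hb i).ne'
  field_simp

lemma prod_eq {k : ℕ} {A : Matrix (Fin (k + 1)) (Fin (k + 1)) ℝ} {x : Fin k → ℝ}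
    (hb : ∀ i, 0 < bb A x i) (t : ℝ) :
    ∏ i, (A i 0 * t + bb A x i) = (∏ i, bb A x i) * ∏ i, (1 + A i 0 / bb A x i * t) := by
  rw [← prod_mul_distrib]
  refine prod_congr rfl fun i _ => ?_
  have := (hb i).ne'
  field_simp
  ring

lemma const_lt {k : ℕ} (hk : 0 < k) :
    ((k : ℝ) / (k + 1)) ^ k < (((k : ℝ) + 1) / k) / (1 + ((k : ℝ) + 1) / k ^ 2) ^ k := by
  have hk' : (0 : ℝ) < k := by exact_mod_cast hk
  have h1 : (1 + ((k : ℝ) + 1) / k ^ 2) = (((k : ℝ) + 1) / k) * (1 + 1 / (k * (k + 1))) := by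
    field_simp
    ring
  have h2 : (1 + 1 / ((k : ℝ) * (k + 1))) ^ k < ((k : ℝ) + 1) / k := by
    have e1 : (1 + 1 / ((k : ℝ) * (k + 1))) ^ k ≤ Real.exp (1 / ((k : ℝ) + 1)) := by
      have e2 : 1 + 1 / ((k : ℝ) * (k + 1)) ≤ Real.exp (1 / ((k : ℝ) * (k + 1))) := by
        have := Real.add_one_le_exp (1 / ((k : ℝ) * (k + 1)))
        linarith
      refine (pow_le_pow_left₀ (by positivity) e2 k).trans (le_of_eq ?_)
      rw [← Real.exp_nat_mul]
      congr 1
      field_simp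
    have e3 : Real.exp (1 / ((k : ℝ) + 1)) < ((k : ℝ) + 1) / k := by
      have e0 : (0 : ℝ) < 1 / ((k : ℝ) + 1) := by positivity
      have e4 := Real.add_one_lt_exp (x := -(1 / ((k : ℝ) + 1))) (neg_lt_zero.2 e0).ne
      rw [Real.exp_neg] at e4
      have e5 : -(1 / ((k : ℝ) + 1)) + 1 = k / (k + 1) := by
        field_simp
        ring
      rw [e5] at e4
      have e6 : (0 : ℝ) < k / (k + 1) := by positivity
      have e7 := (lt_inv_comm₀ e6 (Real.exp_pos _)).1 e4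
      rwa [inv_div] at e7
    exact e1.trans_lt e3
  rw [h1, mul_pow, lt_div_iff₀ (by positivity)]
  have h3 : ((k : ℝ) / (k + 1)) ^ k * (((((k : ℝ) + 1) / k)) ^ k * (1 + 1 / ((k : ℝ) * (k + 1))) ^ k)
      = (1 + 1 / ((k : ℝ) * (k + 1))) ^ k := by
    rw [← mul_assoc, ← mul_pow]
    have : (k : ℝ) / (k + 1) * ((k + 1) / k) = 1 := by field_simp
    rw [this, one_pow, one_mul]
  rw [h3]
  exact h2

lemma fac_eq {k : ℕ} (hk : 0 < k) : (((k + 1).factorial : ℕ) : ℝ) / ((k + 1 : ℕ) : ℝ) ^ (k + 1)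
    = ((k : ℝ) / (k + 1)) ^ k * ((k.factorial : ℝ) / (k : ℝ) ^ k) := by
  have hk' : (0 : ℝ) < k := by exact_mod_cast hk
  rw [Nat.factorial_succ, div_pow]
  push_cast
  rw [pow_succ]
  field_simp

/-- Step 1: the lower bound for `Q` if the first column has a zero. -/
lemma step1 {k : ℕ} (hk : 0 < k) {A : Matrix (Fin (k + 1)) (Fin (k + 1)) ℝ} (hA : DS A)
    {i₀ : Fin (k + 1)} (h0 : A i₀ 0 = 0) (x : Fin k → ℝ) (hx : ∀ j, 0 < x j) :
    (((k : ℝ) + 1) / k) / (1 + ((k : ℝ) + 1) / k ^ 2) ^ k * ∏ j, x j ≤ QQ A x := by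
  have hk' : (0 : ℝ) < k := by exact_mod_cast hk
  have hX : 0 < ∏ j, x j := prod_pos fun j _ => hx j
  by_cases hb : ∀ i, 0 < bb A x i
  · set S := ∑ i, A i 0 / bb A x i with hS
    have hl : ∀ i, 0 ≤ A i 0 / bb A x i := fun i => div_nonneg (hA.1 _ _) (hb i).le
    have hS0 : 0 < S := by
      refine lt_of_le_of_ne (sum_nonneg fun i _ => hl i) fun h => ?_
      have h1 := (sum_eq_zero_iff_of_nonneg fun i _ => hl i).1 h.symm
      have h2 : ∑ i, A i 0 = 0 := sum_eq_zero fun i hi => by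
        have := h1 i hi
        rcases div_eq_zero_iff.1 this with h | h
        · exact h
        · exact absurd h (hb i).ne'
      rw [hA.2.2 0] at h2
      exact one_ne_zero h2
    set t : ℝ := ((k : ℝ) + 1) / (k * S) with ht
    have ht0 : 0 < t := by positivity
    have h1 := tX hA x hx t ht0
    rw [prod_eq hb] at h1
    rw [QQ_eq hb]
    have h2 : ∏ i, (1 + A i 0 / bb A x i * t) ≤ (1 + ((k : ℝ) + 1) / k ^ 2) ^ k := by
      rw [← mul_prod_erase univ (fun i => 1 + A i 0 / bb A x i * t) (mem_univ i₀)]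
      rw [h0, zero_div, zero_mul, add_zero, one_mul]
      have h3 := amgm (univ.erase i₀) k (by rw [card_erase_of_mem (mem_univ _)]; simp) hk
        (fun i => 1 + A i 0 / bb A x i * t) (fun i _ => by
          have := mul_nonneg (hl i) ht0.le
          linarith)
      refine h3.trans (le_of_eq ?_)
      congr 1
      rw [sum_add_distrib, ← sum_mul, sum_const, card_erase_of_mem (mem_univ _), nsmul_eq_mul]
      have h4 : ∑ i ∈ univ.erase i₀, A i 0 / bb A x i = S := by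
        rw [hS, ← add_sum_erase univ (fun i => A i 0 / bb A x i) (mem_univ i₀), h0, zero_div,
          zero_add]
      rw [h4, ht]
      simp
      field_simp
    have hB : 0 < ∏ i, bb A x i := prod_pos fun i _ => hb i
    have h5 : t * ∏ j, x j ≤ (∏ i, bb A x i) * (1 + ((k : ℝ) + 1) / k ^ 2) ^ k :=
      h1.trans (mul_le_mul_of_nonneg_left h2 hB.le)
    rw [div_mul_eq_mul_div, div_le_iff₀ (by positivity)]
    have h6 : ((k : ℝ) + 1) / k * ∏ j, x j = S * (t * ∏ j, x j) := by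
      rw [ht]
      field_simp
    rw [h6]
    calc S * (t * ∏ j, x j) ≤ S * ((∏ i, bb A x i) * (1 + ((k : ℝ) + 1) / k ^ 2) ^ k) :=
          mul_le_mul_of_nonneg_left h5 hS0.le
      _ = _ := by ring
  · push Not at hb
    obtain ⟨i₁, hi₁⟩ := hb
    have hz : bb A x i₁ = 0 := le_antisymm hi₁ (bb_nonneg hA hx i₁)
    have h1 : ∀ j : Fin k, A i₁ j.succ = 0 := fun j => by
      have := (sum_eq_zero_iff_of_nonneg fun j _ => mul_nonneg (hA.1 _ _) (hx j).le).1 hz j
        (mem_univ _)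
      rcases mul_eq_zero.1 this with h | h
      · exact h
      · exact absurd h (hx j).ne'
    have h2 : A i₁ 0 = 1 := by
      have := hA.2.1 i₁
      rw [Fin.sum_univ_succ] at this
      simpa [h1] using this
    have h3 : ∀ i, i ≠ i₁ → A i 0 = 0 := by
      intro i hi
      have h4 := hA.2.2 0
      rw [← add_sum_erase univ (fun i => A i 0) (mem_univ i₁), h2] at h4
      have h5 : ∑ i ∈ univ.erase i₁, A i 0 = 0 := by linarith
      exact (sum_eq_zero_iff_of_nonneg fun i _ => hA.1 i 0).1 h5 i (mem_erase.2 ⟨hi, mem_univ _⟩)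
    have h6 := tX hA x hx 1 one_pos
    rw [← mul_prod_erase univ (fun i => A i 0 * 1 + bb A x i) (mem_univ i₁), hz, h2] at h6
    have h7 : ∏ i ∈ univ.erase i₁, (A i 0 * 1 + bb A x i) = ∏ i ∈ univ.erase i₁, bb A x i :=
      prod_congr rfl fun i hi => by rw [h3 i (ne_of_mem_erase hi)]; ring
    rw [h7] at h6
    have h8 : QQ A x = ∏ i ∈ univ.erase i₁, bb A x i := by
      unfold QQ
      rw [sum_eq_single i₁ (fun i _ hi => by rw [h3 i hi, zero_mul])
        (fun h => absurd (mem_univ _) h), h2, one_mul]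
    rw [h8]
    have h9 : (((k : ℝ) + 1) / k) / (1 + ((k : ℝ) + 1) / k ^ 2) ^ k ≤ 1 := by
      rw [div_le_one (by positivity)]
      have := one_add_mul_le_pow (a := ((k : ℝ) + 1) / k ^ 2) (by
        have : (0 : ℝ) < ((k : ℝ) + 1) / k ^ 2 := by positivity
        linarith) k
      refine le_trans (le_of_eq ?_) ((le_add_of_nonneg_left zero_le_one).trans this)
      field_simp
    calc _ ≤ 1 * ∏ j, x j := mul_le_mul_of_nonneg_right h9 hX.le
      _ ≤ _ := by linarith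

/-- Step 2: the case of equality at a point. -/
lemma step2 {k : ℕ} (hk : 0 < k) {A : Matrix (Fin (k + 1)) (Fin (k + 1)) ℝ} (hA : DS A)
    (hpos : ∀ i j, 0 < A i j) (x : Fin k → ℝ) (hx : ∀ j, 0 < x j)
    (hQ : QQ A x ≤ ((k : ℝ) / (k + 1)) ^ k * ∏ j, x j) :
    ∀ i, A i 0 = 1 / ((k + 1 : ℕ) : ℝ) := by
  have hk' : (0 : ℝ) < k := by exact_mod_cast hk
  have hX : 0 < ∏ j, x j := prod_pos fun j _ => hx j
  have : Nonempty (Fin k) := ⟨⟨0, hk⟩⟩
  have hb : ∀ i, 0 < bb A x i := fun i =>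
    sum_pos (fun j _ => mul_pos (hpos _ _) (hx j)) univ_nonempty
  set S := ∑ i, A i 0 / bb A x i with hS
  have hl : ∀ i, 0 < A i 0 / bb A x i := fun i => div_pos (hpos _ _) (hb i)
  have hS0 : 0 < S := sum_pos (fun i _ => hl i) univ_nonempty
  set t : ℝ := ((k : ℝ) + 1) / (k * S) with ht
  have ht0 : 0 < t := by positivity
  have hB : 0 < ∏ i, bb A x i := prod_pos fun i _ => hb i
  have h1 := tX hA x hx t ht0
  rw [prod_eq hb] at h1
  rw [QQ_eq hb, ← hS] at hQ
  have hsum : (∑ i, (1 + A i 0 / bb A x i * t)) / ((k + 1 : ℕ) : ℝ) = 1 + 1 / k := by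
    rw [sum_add_distrib, ← sum_mul, ← hS, ht]
    simp
    field_simp
  have h2 := amgm univ (k + 1) (by simp) (Nat.succ_pos k) (fun i => 1 + A i 0 / bb A x i * t)
    (fun i _ => by
      have := mul_nonneg (hl i).le ht0.le
      linarith)
  rw [hsum] at h2
  have h3 : (∏ i, bb A x i) * (1 + 1 / (k : ℝ)) ^ (k + 1) ≤ t * ∏ j, x j := by
    have e1 : ((k : ℝ) / (k + 1)) ^ k * (1 + 1 / (k : ℝ)) ^ (k + 1) = (k + 1) / k := by
      have e2 : (1 + 1 / (k : ℝ)) = (k + 1) / k := by field_simp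
      rw [e2, pow_succ, ← mul_assoc, ← mul_pow]
      have : (k : ℝ) / (k + 1) * ((k + 1) / k) = 1 := by field_simp
      rw [this, one_pow, one_mul]
    have e3 : (∏ i, bb A x i) * S * (1 + 1 / (k : ℝ)) ^ (k + 1) ≤
        ((k : ℝ) / (k + 1)) ^ k * (∏ j, x j) * (1 + 1 / (k : ℝ)) ^ (k + 1) :=
      mul_le_mul_of_nonneg_right hQ (by positivity)
    have e4 : ((k : ℝ) / (k + 1)) ^ k * (∏ j, x j) * (1 + 1 / (k : ℝ)) ^ (k + 1)
        = S * (t * ∏ j, x j) := by
      rw [mul_right_comm, e1, ht]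
      field_simp
    rw [e4] at e3
    have e5 : S * ((∏ i, bb A x i) * (1 + 1 / (k : ℝ)) ^ (k + 1)) ≤ S * (t * ∏ j, x j) := by
      linarith
    exact le_of_mul_le_mul_left e5 hS0
  -- equality in the rows
  have h4 : ∏ i, ∑ j, A i j * (Fin.cons t x : Fin (k + 1) → ℝ) j ≤
      ∏ j, (Fin.cons t x : Fin (k + 1) → ℝ) j := by
    have e0 : ∏ j, (Fin.cons t x : Fin (k + 1) → ℝ) j = t * ∏ j, x j := by
      rw [Fin.prod_univ_succ]
      simp only [Fin.cons_zero, Fin.cons_succ]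
    rw [e0]
    refine le_trans (le_of_eq ?_) ((mul_le_mul_of_nonneg_left h2 hB.le).trans h3)
    rw [← prod_eq hb]
    refine prod_congr rfl fun i _ => ?_
    rw [Fin.sum_univ_succ]
    simp [bb]
  have hy : ∀ j, 0 < (Fin.cons t x : Fin (k + 1) → ℝ) j := fun j => by
    refine Fin.cases ?_ (fun j => ?_) j
    · exact ht0
    · exact hx j
  have h5 := const_of_eq hA hpos _ hy h4
  have h6 : ∀ j, x j = t := fun j => by
    have e1 := h5 0 j.succ
    have e2 := h5 0 0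
    rw [← e2] at e1
    simpa using e1
  have h7 : (1 + 1 / (k : ℝ)) ^ (k + 1) ≤ ∏ i, (1 + A i 0 / bb A x i * t) :=
    le_of_mul_le_mul_left (h3.trans h1) hB
  have h8 := amgm_eq univ (k + 1) (by simp) (Nat.succ_pos k)
    (fun i => 1 + A i 0 / bb A x i * t) (fun i _ => by
      have := mul_nonneg (hl i).le ht0.le
      linarith) (by rw [hsum]; exact h7)
  rw [hsum] at h8
  intro i
  have h9 := h8 i (mem_univ i)
  beta_reduce at h9
  have h10 : bb A x i = (1 - A i 0) * t := by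
    unfold bb
    have := hA.2.1 i
    rw [Fin.sum_univ_succ] at this
    rw [← this, add_sub_cancel_left, sum_mul]
    exact sum_congr rfl fun j _ => by rw [h6 j]
  have h11 : A i 0 * t = 1 / k * bb A x i := by
    have e1 : A i 0 / bb A x i * t = 1 / k := by linarith
    have := (hb i).ne'
    field_simp at e1 ⊢
    linarith
  rw [h10] at h11
  have h12 : A i 0 = 1 / k * (1 - A i 0) := by
    have : A i 0 * t = 1 / k * (1 - A i 0) * t := by linarith
    exact mul_right_cancel₀ ht0.ne' this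
  push_cast
  field_simp at h12 ⊢
  linarith

lemma QQ_smul {k : ℕ} (A : Matrix (Fin (k + 1)) (Fin (k + 1)) ℝ) (s : ℝ) (x : Fin k → ℝ) :
    QQ A (fun j => s * x j) = s ^ k * QQ A x := by
  unfold QQ
  rw [mul_sum]
  refine sum_congr rfl fun i _ => ?_
  have h1 : ∀ i', bb A (fun j => s * x j) i' = s * bb A x i' := fun i' => by
    unfold bb
    rw [mul_sum]
    exact sum_congr rfl fun j _ => by ring
  simp only [h1]
  rw [prod_mul_distrib, prod_const, card_erase_of_mem (mem_univ _)]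
  simp only [card_univ, Fintype.card_fin, Nat.add_sub_cancel]
  ring

lemma exists_x (hcol : S_col) {k : ℕ} (hk : 0 < k) {A : Matrix (Fin (k + 1)) (Fin (k + 1)) ℝ}
    (hA : DS A) (hpos : ∀ i j, 0 < A i j)
    (hper : A.permanent = (((k + 1).factorial : ℕ) : ℝ) / ((k + 1 : ℕ) : ℝ) ^ (k + 1)) :
    ∃ x : Fin k → ℝ, (∀ j, 0 < x j) ∧ QQ A x ≤ ((k : ℝ) / (k + 1)) ^ k * ∏ j, x j := by
  have hk' : (0 : ℝ) < k := by exact_mod_cast hk
  have : Nonempty (Fin k) := ⟨⟨0, hk⟩⟩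
  set g : ℝ := ((k : ℝ) / (k + 1)) ^ k with hg
  have hg0 : 0 < g := by positivity
  obtain ⟨p, -, hp⟩ := exists_min_image (univ : Finset (Fin (k + 1) × Fin (k + 1)))
    (fun p => A p.1 p.2) univ_nonempty
  set α : ℝ := A p.1 p.2 with hα
  have hα0 : 0 < α := hpos _ _
  have hαl : ∀ i j, α ≤ A i j := fun i j => hp (i, j) (mem_univ _)
  have hα1 : α ≤ 1 := by
    rw [← hA.2.1 p.1]
    exact single_le_sum (f := fun j => A p.1 j) (fun j _ => (hpos _ _).le) (mem_univ p.2)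
  set κ : ℝ := α ^ k / (g + 1) with hκ
  have hκ0 : 0 < κ := by positivity
  have hκ1 : κ ≤ 1 := by
    rw [hκ, div_le_one (by positivity)]
    have := pow_le_one₀ (n := k) hα0.le hα1
    linarith
  set K : Set (Fin k → ℝ) := Set.pi Set.univ fun _ => Set.Icc κ 1 with hK
  have hKc : IsCompact K := isCompact_univ_pi fun _ => isCompact_Icc
  have hKn : K.Nonempty := ⟨fun _ => 1, fun j _ => ⟨hκ1, le_rfl⟩⟩
  have hKpos : ∀ x ∈ K, ∀ j, 0 < x j := fun x hx j => hκ0.trans_le (hx j (Set.mem_univ _)).1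
  have hcont : ContinuousOn (fun x : Fin k → ℝ => QQ A x / ∏ j, x j) K := by
    refine ContinuousOn.div ?_ ?_ fun x hx => (prod_pos fun j _ => hKpos x hx j).ne'
    · refine Continuous.continuousOn ?_
      unfold QQ bb
      fun_prop
    · refine Continuous.continuousOn ?_
      fun_prop
  obtain ⟨xs, hxs, hmin⟩ := hKc.exists_isMinOn hKn hcont
  have hxs0 := hKpos xs hxs
  refine ⟨xs, hxs0, ?_⟩
  by_contra hcon
  push Not at hcon
  have hXs : 0 < ∏ j, xs j := prod_pos fun j _ => hxs0 j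
  set c : ℝ := min (QQ A xs / ∏ j, xs j) (g + 1) with hc
  have hcg : g < c := by
    refine lt_min ?_ (by linarith)
    rw [lt_div_iff₀ hXs]
    exact hcon
  have hc0 : 0 < c := hg0.trans hcg
  have key : ∀ y : Fin k → ℝ, (∀ j, 0 < y j) → ∑ j, y j = 1 → c * ∏ j, y j ≤ QQ A y := by
    intro y hy hy1
    have hY : 0 < ∏ j, y j := prod_pos fun j _ => hy j
    have hyle : ∀ j, y j ≤ 1 := fun j => by
      rw [← hy1]
      exact single_le_sum (fun j _ => (hy j).le) (mem_univ j)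
    by_cases hall : ∀ j, κ ≤ y j
    · have h1 : y ∈ K := fun j _ => ⟨hall j, hyle j⟩
      have h2 := hmin h1
      have h3 : c ≤ QQ A y / ∏ j, y j := (min_le_left _ _).trans h2
      rwa [le_div_iff₀ hY] at h3
    · push Not at hall
      obtain ⟨j₀, hj₀⟩ := hall
      have h1 : ∏ j, y j ≤ κ := by
        rw [← mul_prod_erase univ y (mem_univ j₀)]
        calc y j₀ * ∏ j ∈ univ.erase j₀, y j ≤ κ * 1 :=
              mul_le_mul hj₀.le (prod_le_one (fun j _ => (hy j).le) fun j _ => hyle j)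
                (prod_nonneg fun j _ => (hy j).le) hκ0.le
          _ = κ := mul_one _
      have h2 : α ^ k ≤ QQ A y := by
        have e1 : ∀ i, α ≤ bb A y i := fun i => by
          have : α = ∑ j : Fin k, α * y j := by rw [← mul_sum, hy1, mul_one]
          rw [this]
          exact sum_le_sum fun j _ => mul_le_mul_of_nonneg_right (hαl _ _) (hy j).le
        have e2 : α ^ k = ∑ i, A i 0 * α ^ k := by rw [← sum_mul, hA.2.2 0, one_mul]
        rw [e2]
        refine sum_le_sum fun i _ => mul_le_mul_of_nonneg_left ?_ (hA.1 _ _)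
        have e3 : α ^ k = ∏ _i' ∈ univ.erase i, α := by
          rw [prod_const, card_erase_of_mem (mem_univ _)]
          simp
        rw [e3]
        exact prod_le_prod (fun _ _ => hα0.le) fun i' _ => e1 i'
      calc c * ∏ j, y j ≤ (g + 1) * κ :=
            mul_le_mul (min_le_right _ _) h1 hY.le (by positivity)
        _ = α ^ k := by rw [hκ]; field_simp
        _ ≤ _ := h2
  have key2 : ∀ x : Fin k → ℝ, (∀ j, 0 < x j) → c * ∏ j, x j ≤ QQ A x := by
    intro x hx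
    set σ : ℝ := ∑ j, x j with hσ
    have hσ0 : 0 < σ := sum_pos (fun j _ => hx j) univ_nonempty
    have h1 := key (fun j => σ⁻¹ * x j) (fun j => mul_pos (inv_pos.2 hσ0) (hx j))
      (by rw [← mul_sum, ← hσ, inv_mul_cancel₀ hσ0.ne'])
    rw [QQ_smul, prod_mul_distrib, prod_const, card_univ, Fintype.card_fin] at h1
    have h2 : (0 : ℝ) < σ⁻¹ ^ k := by positivity
    have h3 : σ⁻¹ ^ k * (c * ∏ j, x j) ≤ σ⁻¹ ^ k * QQ A x := by
      refine le_trans (le_of_eq ?_) h1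
      ring
    exact le_of_mul_le_mul_left h3 h2
  have h1 := hcol k A hA c hc0 key2
  rw [hper, fac_eq hk] at h1
  have h2 : (0 : ℝ) < (k.factorial : ℝ) / (k : ℝ) ^ k := by positivity
  exact absurd (le_of_mul_le_mul_right h1 h2) (not_le.2 hcg)

lemma pos_col (hcol : S_col) {k : ℕ} (hk : 0 < k) {A : Matrix (Fin (k + 1)) (Fin (k + 1)) ℝ}
    (hA : DS A)
    (hper : A.permanent = (((k + 1).factorial : ℕ) : ℝ) / ((k + 1 : ℕ) : ℝ) ^ (k + 1)) (i : Fin (k + 1)) :
    0 < A i 0 := by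
  refine lt_of_le_of_ne (hA.1 _ _) fun h0 => ?_
  have hk' : (0 : ℝ) < k := by exact_mod_cast hk
  have h1 := hcol k A hA _ (lt_trans (by positivity) (const_lt hk))
    (fun x hx => step1 hk hA h0.symm x hx)
  rw [hper, fac_eq hk] at h1
  have h2 : (0 : ℝ) < (k.factorial : ℝ) / (k : ℝ) ^ k := by positivity
  exact absurd (le_of_mul_le_mul_right h1 h2) (not_le.2 (const_lt hk))

lemma DS_swap {n : ℕ} {A : Matrix (Fin n) (Fin n) ℝ} (hA : DS A) (σ : Equiv.Perm (Fin n)) :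
    DS (A.submatrix id σ) :=
  ⟨fun i j => hA.1 _ _, fun i => (Equiv.sum_comp σ (fun j => A i j)).trans (hA.2.1 i),
    fun j => hA.2.2 (σ j)⟩

/-- Uniqueness in the van der Waerden permanent inequality. -/
theorem t_vdwu : S_col → S_vdw → S_vdwu := by
  intro hcol _ n A hA hper
  cases n with
  | zero => intro i; exact i.elim0
  | succ k =>
    intro i j
    rcases Nat.eq_zero_or_pos k with rfl | hk
    · have h := hA.2.1 0
      rw [Fin.sum_univ_succ] at h
      simp only [univ_eq_empty, sum_empty, add_zero] at h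
      have hi : i = 0 := Fin.ext (by omega)
      have hj : j = 0 := Fin.ext (by omega)
      rw [hi, hj, h]
      norm_num
    · have hsw : ∀ j : Fin (k + 1), DS (A.submatrix id (Equiv.swap 0 j)) ∧
          (A.submatrix id (Equiv.swap 0 j)).permanent =
            (((k + 1).factorial : ℕ) : ℝ) / ((k + 1 : ℕ) : ℝ) ^ (k + 1) := fun j =>
        ⟨DS_swap hA _, by rw [← hper]; exact Matrix.permanent_permute_rows _ _⟩
      have hpos : ∀ i j, 0 < A i j := fun i j => by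
        have := pos_col hcol hk (hsw j).1 (hsw j).2 i
        simpa using this
      obtain ⟨x, hx, hQ⟩ := exists_x hcol hk (hsw j).1 (fun _ _ => hpos _ _) (hsw j).2
      have := step2 hk (hsw j).1 (fun _ _ => hpos _ _) x hx hQ i
      simpa using this

end Pool.Agent.Y338.FG
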